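import Mathlib

/-! Solutions of sigma_{n-2} = sigma_n: definitions and elementary facts on descending lists of reals. -/

namespace Q39.SG

open List

/-- sum of reciprocals -/
noncomputable def s : List ℝ → ℝ
  | [] => 0
  | x :: L => 1 / x + s L

/-- sum of the products of two reciprocals -/
noncomputable def e : List ℝ → ℝ
  | [] => 0
  | x :: L => e L + 1 / x * s L

/-- sum of squares of reciprocals -/
noncomputable def q : List ℝ → ℝ
  | [] => 0
  | x :: L => (1 / x) ^ 2 + q L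

mutual
/-- product of the first `k` terms of the sequence -/
def Pi : ℕ → ℕ
  | 0 => 1
  | k + 1 => Pi k * (1 + Nm k)
/-- numerator of the sum of the first `k` reciprocals, over `Pi k` -/
def Nm : ℕ → ℕ
  | 0 => 0
  | k + 1 => Nm k * (1 + Nm k) + Pi k
end

/-- `δ k = 1 / Pi k` -/
noncomputable def dl (k : ℕ) : ℝ := 1 / (Pi k : ℝ)
/-- `S k`, the sum of the first `k` reciprocals of the sequence -/
noncomputable def Sv (k : ℕ) : ℝ := (Nm k : ℝ) / (Pi k : ℝ)

/-- the bound `v_1 ... v_{n-1} (v_n - 1)` -/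
def Tn (n : ℕ) : ℕ := Pi (n - 1) * Nm (n - 1)

theorem Pi_succ (k : ℕ) : Pi (k + 1) = Pi k * (1 + Nm k) := by rw [Pi]
theorem Nm_succ (k : ℕ) : Nm (k + 1) = Nm k * (1 + Nm k) + Pi k := by rw [Nm]
theorem Pi_zero : Pi 0 = 1 := by rw [Pi]
theorem Nm_zero : Nm 0 = 0 := by rw [Nm]
theorem Pi_one : Pi 1 = 1 := by rw [Pi_succ, Pi_zero, Nm_zero]
theorem Nm_one : Nm 1 = 1 := by rw [Nm_succ, Pi_zero, Nm_zero]
theorem Pi_two : Pi 2 = 2 := by rw [Pi_succ, Pi_one, Nm_one]
theorem Nm_two : Nm 2 = 3 := by rw [Nm_succ, Pi_one, Nm_one]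
theorem Pi_three : Pi 3 = 8 := by rw [Pi_succ, Pi_two, Nm_two]
theorem Nm_three : Nm 3 = 14 := by rw [Nm_succ, Pi_two, Nm_two]

theorem Pi_pos (k : ℕ) : 0 < Pi k := by
  induction k with
  | zero => rw [Pi_zero]; norm_num
  | succ k ih => rw [Pi_succ]; positivity

theorem Nm_pos {k : ℕ} (hk : 1 ≤ k) : 0 < Nm k := by
  obtain ⟨j, rfl⟩ : ∃ j, k = j + 1 := ⟨k - 1, by omega⟩
  rw [Nm_succ]
  have := Pi_pos j
  omega

theorem Nm_mono_succ (k : ℕ) : Nm k ≤ Nm (k + 1) := by
  rw [Nm_succ]; nlinarith [Nat.zero_le (Nm k * Nm k), Nat.zero_le (Pi k)]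

theorem Nm_mono {i j : ℕ} (h : i ≤ j) : Nm i ≤ Nm j := monotone_nat_of_le_succ Nm_mono_succ h

theorem PiR_pos (k : ℕ) : (0 : ℝ) < (Pi k : ℝ) := by exact_mod_cast Pi_pos k

theorem dl_pos (k : ℕ) : 0 < dl k := by unfold dl; have := PiR_pos k; positivity
theorem dl_one : dl 1 = 1 := by unfold dl; rw [Pi_one]; norm_num
theorem dl_zero : dl 0 = 1 := by unfold dl; rw [Pi_zero]; norm_num
theorem dl_two : dl 2 = 1 / 2 := by unfold dl; rw [Pi_two]; norm_num
theorem dl_three : dl 3 = 1 / 8 := by unfold dl; rw [Pi_three]; norm_num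

theorem dl_succ (k : ℕ) : dl (k + 1) = dl k / (1 + (Nm k : ℝ)) := by
  unfold dl
  rw [Pi_succ]
  push_cast
  have := PiR_pos k
  field_simp

theorem dl_succ_le (k : ℕ) (hk : 2 ≤ k) : dl (k + 1) ≤ dl k / 4 := by
  rw [dl_succ]
  have h1 : 3 ≤ Nm k := by have := Nm_mono hk; rw [Nm_two] at this; exact this
  have h2 : (3 : ℝ) ≤ (Nm k : ℝ) := by exact_mod_cast h1
  exact div_le_div_of_nonneg_left (dl_pos k).le (by norm_num) (by linarith)

theorem dl_anti_succ (k : ℕ) : dl (k + 1) ≤ dl k := by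
  rw [dl_succ]
  exact div_le_self (dl_pos k).le (by have : (0:ℝ) ≤ (Nm k : ℝ) := by positivity
                                      linarith)

theorem dl_le_one (k : ℕ) : dl k ≤ 1 := by
  induction k with
  | zero => rw [dl_zero]
  | succ k ih => exact (dl_anti_succ k).trans ih

theorem Sv_succ (k : ℕ) : Sv (k + 1) = Sv k + 1 / (1 + (Nm k : ℝ)) := by
  unfold Sv
  rw [Pi_succ, Nm_succ]
  push_cast
  have := PiR_pos k
  have h2 : (0:ℝ) ≤ (Nm k : ℝ) := by positivity
  field_simp

theorem Sv_one : Sv 1 = 1 := by unfold Sv; rw [Pi_one, Nm_one]; norm_num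
theorem Sv_ge_one {k : ℕ} (hk : 1 ≤ k) : 1 ≤ Sv k := by
  induction k, hk using Nat.le_induction with
  | base => rw [Sv_one]
  | succ k hk ih =>
    rw [Sv_succ]
    have : (0:ℝ) ≤ 1 / (1 + (Nm k : ℝ)) := by positivity
    linarith

/-- `1 - δ_k` is `e` of the sequence -/
theorem dl_succ_sub (k : ℕ) : dl k - dl (k + 1) = 1 / (1 + (Nm k : ℝ)) * Sv k := by
  rw [dl_succ]
  unfold dl Sv
  have := PiR_pos k
  have h2 : (0:ℝ) ≤ (Nm k : ℝ) := by positivity
  field_simp
  ring

/-- sum of squares of reciprocals of the sequence -/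
noncomputable def Qv (k : ℕ) : ℝ := Sv k ^ 2 - 2 * (1 - dl k)

theorem Qv_succ (k : ℕ) : Qv (k + 1) = Qv k + (1 / (1 + (Nm k : ℝ))) ^ 2 := by
  unfold Qv
  have h := dl_succ_sub k
  rw [Sv_succ]
  linarith [h, sq_nonneg (Sv k), (show (Sv k + 1 / (1 + (Nm k : ℝ))) ^ 2 = Sv k ^ 2 + 2 * (1 / (1 + (Nm k : ℝ)) * Sv k) + (1 / (1 + (Nm k : ℝ))) ^ 2 by ring)]

/-- all entries at least one -/
def Pos1 (L : List ℝ) : Prop := ∀ x ∈ L, 1 ≤ x

/-- the condition `1 - e M ≥ δ_{|M|}` for all suffixes `M` of `L` -/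
def G : List ℝ → Prop
  | [] => True
  | x :: L => dl (L.length + 1) ≤ 1 - e (x :: L) ∧ G L

/-- descending list -/
def Dn : List ℝ → Prop
  | [] => True
  | x :: L => (∀ y ∈ L, y ≤ x) ∧ Dn L

theorem s_nonneg {L : List ℝ} (h : Pos1 L) : 0 ≤ s L := by
  induction L with
  | nil => simp [s]
  | cons x L ih =>
    have h1 := h x (by simp)
    have h2 := ih (fun y hy => h y (by simp [hy]))
    simp only [s]
    positivity

theorem s_pos {L : List ℝ} (h : Pos1 L) (hne : L ≠ []) : 0 < s L := by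
  cases L with
  | nil => exact absurd rfl hne
  | cons x L =>
    have h1 := h x (by simp)
    have h2 := s_nonneg (L := L) (fun y hy => h y (by simp [hy]))
    simp only [s]
    positivity

theorem e_nonneg {L : List ℝ} (h : Pos1 L) : 0 ≤ e L := by
  induction L with
  | nil => simp [e]
  | cons x L ih =>
    have h1 := h x (by simp)
    have hL : Pos1 L := fun y hy => h y (by simp [hy])
    have h2 := ih hL
    have h3 := s_nonneg hL
    simp only [e]
    positivity

theorem Pos1.tail {x : ℝ} {L : List ℝ} (h : Pos1 (x :: L)) : Pos1 L := fun y hy => h y (by simp [hy])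
theorem Pos1.suffix {M L : List ℝ} (h : Pos1 L) (hM : M <:+ L) : Pos1 M := fun y hy => h y (hM.subset hy)

theorem suffix_mono {M L : List ℝ} (hM : M <:+ L) (h : Pos1 L) : s M ≤ s L ∧ e M ≤ e L := by
  induction L with
  | nil =>
    have : M = [] := List.eq_nil_of_suffix_nil hM
    subst this; simp
  | cons x L ih =>
    rcases List.suffix_cons_iff.mp hM with h1 | h1
    · subst h1; exact ⟨le_rfl, le_rfl⟩
    · have h2 := ih h1 h.tail
      have hx := h x (by simp)
      have h3 := s_nonneg h.tail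
      refine ⟨?_, ?_⟩
      · simp only [s]
        have : 0 ≤ 1 / x := by positivity
        linarith [h2.1]
      · simp only [e]
        have : 0 ≤ 1 / x * s L := by positivity
        linarith [h2.2]

theorem sq_s (L : List ℝ) : s L ^ 2 = q L + 2 * e L := by
  induction L with
  | nil => simp [s, q, e]
  | cons x L ih => simp only [s, q, e]; linarith [ih, (show (1 / x + s L) ^ 2 = (1/x)^2 + 2 * (1 / x * s L) + s L ^ 2 by ring)]

theorem G.suffix {M L : List ℝ} (h : G L) (hM : M <:+ L) : G M := by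
  induction L with
  | nil =>
    have : M = [] := List.eq_nil_of_suffix_nil hM
    subst this; exact h
  | cons x L ih =>
    rcases List.suffix_cons_iff.mp hM with h1 | h1
    · subst h1; exact h
    · exact ih h.2 h1

theorem G.self {L : List ℝ} (h : G L) : dl L.length ≤ 1 - e L := by
  cases L with
  | nil => simp [e, dl_zero]
  | cons x L => exact h.1

theorem Dn.suffix {M L : List ℝ} (h : Dn L) (hM : M <:+ L) : Dn M := by
  induction L with
  | nil =>
    have : M = [] := List.eq_nil_of_suffix_nil hM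
    subst this; exact h
  | cons x L ih =>
    rcases List.suffix_cons_iff.mp hM with h1 | h1
    · subst h1; exact h
    · exact ih h.2 h1

/-- Lemma B': comparison of the sums of reciprocals. -/
theorem lemB {x : ℝ} {L : List ℝ} (hp : Pos1 (x :: L)) (hd : Dn (x :: L)) (hG : G (x :: L)) :
    s (x :: L) ≤ Sv (L.length + 1) ∧
    0 ≤ Qv (L.length + 1) - q (x :: L) -
      (Sv (L.length + 1) - s (x :: L)) * (1 / (1 + (Nm L.length : ℝ)) + 1 / x) := by
  induction L generalizing x with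
  | nil =>
    have hx := hp x (by simp)
    have h1 : 1 / x ≤ 1 := by rw [div_le_one (by linarith)]; exact hx
    simp only [List.length_nil, zero_add, s, q, Sv_one, Nm_zero]
    have hQ : Qv 1 = 1 := by unfold Qv; rw [Sv_one, dl_one]; norm_num
    rw [hQ]
    refine ⟨by linarith, ?_⟩
    have h0 : (1:ℝ) - ((1 / x) ^ 2 + 0) - (1 - (1 / x + 0)) * (1 / (1 + ((0:ℕ):ℝ)) + 1 / x) = 0 := by
      push_cast
      ring
    rw [h0]
  | cons x' L ih =>
    have hx := hp x (by simp)
    have hx' := hp x' (by simp)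
    have hxx : x' ≤ x := hd.1 x' (by simp)
    obtain ⟨i1, i2⟩ := ih hp.tail hd.2 hG.2
    have hz : 1 / (1 + (Nm (L.length + 1) : ℝ)) ≤ 1 / (1 + (Nm L.length : ℝ)) := by
      have : (Nm L.length : ℝ) ≤ (Nm (L.length + 1) : ℝ) := by exact_mod_cast Nm_mono_succ _
      exact one_div_le_one_div_of_le (by positivity) (by linarith)
    have hy : 1 / x ≤ 1 / x' := one_div_le_one_div_of_le (by linarith) hxx
    simp only [List.length_cons]
    set k := L.length with hk
    have hS := Sv_succ (k + 1)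
    have hQ := Qv_succ (k + 1)
    have hs : s (x :: x' :: L) = 1 / x + s (x' :: L) := by rw [s]
    have hq : q (x :: x' :: L) = (1 / x) ^ 2 + q (x' :: L) := by rw [q]
    set z := 1 / (1 + (Nm (k + 1) : ℝ)) with hzdef
    set z0 := 1 / (1 + (Nm k : ℝ)) with hz0def
    set y := 1 / x
    set y0 := 1 / x'
    have hE : 0 ≤ Qv (k + 1 + 1) - q (x :: x' :: L) - (Sv (k + 1 + 1) - s (x :: x' :: L)) * (z + y) := by
      rw [hS, hQ, hs, hq]
      have : Qv (k + 1) + z ^ 2 - (y ^ 2 + q (x' :: L)) - (Sv (k + 1) + z - (y + s (x' :: L))) * (z + y)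
        = (Qv (k + 1) - q (x' :: L) - (Sv (k + 1) - s (x' :: L)) * (z0 + y0)) +
          (Sv (k + 1) - s (x' :: L)) * ((z0 + y0) - (z + y)) := by ring
      rw [this]
      have h1 : 0 ≤ (Sv (k + 1) - s (x' :: L)) * ((z0 + y0) - (z + y)) :=
        mul_nonneg (by linarith) (by linarith)
      linarith
    refine ⟨?_, hE⟩
    by_contra hcon
    rw [not_le] at hcon
    have hsq := sq_s (x :: x' :: L)
    have hg := hG.1
    simp only [List.length_cons] at hg
    rw [← hk] at hg
    have hQdef : Qv (k + 1 + 1) = Sv (k + 1 + 1) ^ 2 - 2 * (1 - dl (k + 1 + 1)) := rfl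
    have h1 : Qv (k + 1 + 1) - q (x :: x' :: L) ≤ (Sv (k + 1 + 1) - s (x :: x' :: L)) * (Sv (k + 1 + 1) + s (x :: x' :: L)) := by
      nlinarith
    have h2 : z + y < Sv (k + 1 + 1) + s (x :: x' :: L) := by
      rw [hS, hs]
      have := Sv_ge_one (k := k + 1) (by omega)
      have := s_nonneg hp.tail
      linarith
    nlinarith

end Q39.SG
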