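import Pool.Agent.Q39.SG.IntPart

namespace Q39.SG

open List

set_option maxHeartbeats 4000000

theorem DnN_of_pairwise {L : List ℕ} (h : L.Pairwise (fun a b => b ≤ a)) : DnN L := by
  induction L with
  | nil => trivial
  | cons x L ih =>
    rw [List.pairwise_cons] at h
    exact ⟨h.1, ih h.2⟩

theorem s_esymm (L : List ℝ) : s L = ((L.map (fun x => 1 / x) : List ℝ) : Multiset ℝ).esymm 1 := by
  induction L with
  | nil =>
    have h : Multiset.powersetCard 1 (0 : Multiset ℝ) = 0 := Multiset.powersetCard_zero_right 0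
    simp [s, Multiset.esymm, h]
  | cons x L ih =>
    simp only [s, List.map_cons, ← Multiset.cons_coe]
    rw [Multiset.esymm, Multiset.powersetCard_cons, Multiset.map_add, Multiset.sum_add, ← Multiset.esymm, ← ih]
    simp
    ring

theorem e_esymm (L : List ℝ) : e L = ((L.map (fun x => 1 / x) : List ℝ) : Multiset ℝ).esymm 2 := by
  induction L with
  | nil =>
    have h : Multiset.powersetCard 2 (0 : Multiset ℝ) = 0 := Multiset.powersetCard_zero_right 1
    simp [e, Multiset.esymm, h]
  | cons x L ih =>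
    simp only [e, List.map_cons, ← Multiset.cons_coe]
    rw [Multiset.esymm, Multiset.powersetCard_cons, Multiset.map_add, Multiset.sum_add, ← Multiset.esymm, ← ih,
      s_esymm L, Multiset.esymm, ← Multiset.sum_map_mul_left, Multiset.map_map]
    congr 2
    apply Multiset.map_congr rfl
    intro t _
    simp

/-- complementary form of the elementary symmetric function -/
theorem sum_compl {n : ℕ} (hn : 2 ≤ n) (x : Fin n → ℕ) (hpos : ∀ i, 1 ≤ x i) :
    ((∑ t ∈ Finset.powersetCard (n - 2) (Finset.univ : Finset (Fin n)), ∏ i ∈ t, x i : ℕ) : ℝ) =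
    (∏ i, (x i : ℝ)) * ∑ t ∈ Finset.powersetCard 2 (Finset.univ : Finset (Fin n)), ∏ i ∈ t, (1 / (x i : ℝ)) := by
  rw [Finset.mul_sum]
  push_cast
  refine Finset.sum_nbij' (fun t => tᶜ) (fun t => tᶜ) ?_ ?_ ?_ ?_ ?_
  · intro t ht
    rw [Finset.mem_powersetCard] at ht ⊢
    refine ⟨Finset.subset_univ _, ?_⟩
    rw [Finset.card_compl, ht.2, Fintype.card_fin]; omega
  · intro t ht
    rw [Finset.mem_powersetCard] at ht ⊢
    refine ⟨Finset.subset_univ _, ?_⟩
    rw [Finset.card_compl, ht.2, Fintype.card_fin]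
  · intro t _; simp
  · intro t _; simp
  · intro t _
    have h1 : (∏ i, (x i : ℝ)) = (∏ i ∈ t, (x i : ℝ)) * ∏ i ∈ tᶜ, (x i : ℝ) := (Finset.prod_mul_prod_compl t _).symm
    have h2 : (∏ i ∈ tᶜ, (x i : ℝ)) * ∏ i ∈ tᶜ, (1 / (x i : ℝ)) = 1 := by
      rw [← Finset.prod_mul_distrib]
      apply Finset.prod_eq_one
      intro i _
      have : (0:ℝ) < (x i : ℝ) := by exact_mod_cast hpos i
      field_simp
    rw [h1, mul_assoc, h2, mul_one]

theorem e_tuple {n : ℕ} (x : Fin n → ℕ) :
    e (cast (List.ofFn x).reverse) = ∑ t ∈ Finset.powersetCard 2 (Finset.univ : Finset (Fin n)), ∏ i ∈ t, (1 / (x i : ℝ)) := by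
  rw [e_esymm, ← Finset.esymm_map_val]
  congr 1
  rw [cast, List.map_map, List.map_reverse, Multiset.coe_reverse, List.map_ofFn, ← Fin.univ_val_map]
  rfl

theorem prod_tuple {n : ℕ} (x : Fin n → ℕ) :
    (cast (List.ofFn x).reverse).prod = ∏ i, (x i : ℝ) := by
  rw [cast, List.map_reverse, (List.reverse_perm _).prod_eq, List.map_ofFn, List.prod_ofFn]
  rfl

theorem tuple_bound {n : ℕ} (hn : 2 ≤ n) (x : Fin n → ℕ) (hpos : ∀ i, 1 ≤ x i) (hmono : Monotone x)
    (hx : ∑ t ∈ Finset.powersetCard (n - 2) (Finset.univ : Finset (Fin n)), ∏ i ∈ t, x i = ∏ i, x i) :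
    (∏ i, (x i : ℝ)) ≤ (Tn n : ℝ) := by
  have hprodpos : (0:ℝ) < ∏ i, (x i : ℝ) := by
    apply Finset.prod_pos
    intro i _
    exact_mod_cast hpos i
  have h1 := sum_compl hn x hpos
  rw [hx] at h1
  push_cast at h1
  have h2 : e (cast (List.ofFn x).reverse) = 1 := by
    rw [e_tuple]
    have h3 : (∏ i, (x i : ℝ)) * 1 = (∏ i, (x i : ℝ)) * ∑ t ∈ Finset.powersetCard 2 (Finset.univ : Finset (Fin n)), ∏ i ∈ t, (1 / (x i : ℝ)) := by
      rw [mul_one]; exact h1
    exact (mul_left_cancel₀ hprodpos.ne' h3).symm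
  rcases Nat.lt_or_ge n 4 with hn4 | hn4
  · interval_cases n
    · -- n = 2
      have h3 : x 0 * x 1 = 1 := by
        have := hx
        simp [Fin.prod_univ_two] at this
        exact this.symm
      have : (∏ i, (x i : ℝ)) = 1 := by
        rw [Fin.prod_univ_two]; exact_mod_cast h3
      rw [this]
      have : Tn 2 = 1 := by unfold Tn; rw [show 2 - 1 = 1 by rfl, Pi_one, Nm_one]
      rw [this]; norm_num
    · -- n = 3
      have h3 : x 0 + x 1 + x 2 = x 0 * x 1 * x 2 := by
        have := hx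
        rw [show 3 - 2 = 1 by rfl, Finset.powersetCard_one, Finset.sum_map] at this
        simp only [Function.Embedding.coeFn_mk, Finset.prod_singleton] at this
        rw [Fin.sum_univ_three, Fin.prod_univ_three] at this
        exact this
      have h01 : x 0 ≤ x 1 := hmono (by decide)
      have h12 : x 1 ≤ x 2 := hmono (by decide)
      have hp0 := hpos 0
      have hp1 := hpos 1
      have hp2 := hpos 2
      have h6 : x 0 * x 1 * x 2 ≤ 6 := by
        generalize x 0 = a at *
        generalize x 1 = b at *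
        generalize x 2 = c at *
        have hab : a * b ≤ 3 := by
          by_contra hcon
          have : 4 ≤ a * b := by omega
          have : 4 * c ≤ a * b * c := Nat.mul_le_mul_right c this
          omega
        have hb : b ≤ 3 := by nlinarith
        have ha : a ≤ 3 := by omega
        interval_cases a <;> interval_cases b <;> omega
      have hT : Tn 3 = 6 := by unfold Tn; rw [show 3 - 1 = 2 by rfl, Pi_two, Nm_two]
      rw [hT, Fin.prod_univ_three]
      exact_mod_cast h6
  · obtain ⟨y, L, hL⟩ : ∃ y L, (List.ofFn x).reverse = y :: L := by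
      cases hh : (List.ofFn x).reverse with
      | nil =>
        have := congrArg List.length hh
        simp at this
        omega
      | cons y L => exact ⟨y, L, rfl⟩
    have hlen : L.length + 1 = n := by
      have := congrArg List.length hL
      simp at this
      omega
    have hd : DnN (y :: L) := by
      rw [← hL]
      apply DnN_of_pairwise
      rw [List.pairwise_reverse, List.pairwise_ofFn]
      intro i j hij
      exact hmono hij.le
    have hp : ∀ z ∈ y :: L, 1 ≤ z := by
      intro z hz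
      rw [← hL, List.mem_reverse, List.mem_ofFn] at hz
      obtain ⟨i, rfl⟩ := hz
      exact hpos i
    have hfin := list_bound (x := y) (L := L) (by omega) hd hp (by rw [← hL]; exact h2)
    rw [← hL, prod_tuple, hlen] at hfin
    exact hfin

/-- The sequence of the problem is `v k = 1 + Nm (k - 1)`. -/
theorem v_eq (v : ℕ → ℝ) (h1 : v 1 = 1) (h2 : v 2 = 2)
    (hv : ∀ n, 2 ≤ n → v (n + 1) = 1 + (∑ i ∈ Finset.Icc 1 n, 1 / v i) /
      (1 - ∑ j ∈ Finset.Icc 1 n, ∑ i ∈ Finset.Ico 1 j, 1 / (v i * v j))) (n : ℕ) :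
    v (n + 1) = 1 + (Nm n : ℝ) ∧ ∑ i ∈ Finset.Icc 1 (n + 1), 1 / v i = Sv (n + 1) ∧
    1 - ∑ j ∈ Finset.Icc 1 (n + 1), ∑ i ∈ Finset.Ico 1 j, 1 / (v i * v j) = dl (n + 1) ∧
    ∏ i ∈ Finset.Icc 1 (n + 1), v i = (Pi (n + 1) : ℝ) := by
  induction n with
  | zero =>
    refine ⟨by rw [h1, Nm_zero]; norm_num, ?_, ?_, ?_⟩
    · simp [h1, Sv_one]
    · simp [dl_one]
    · simp [h1, Pi_one]
  | succ n ih =>
    obtain ⟨i1, i2, i3, i4⟩ := ih
    have hvn : v (n + 1 + 1) = 1 + (Nm (n + 1) : ℝ) := by
      rcases Nat.eq_zero_or_pos n with hn | hn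
      · subst hn
        rw [Nm_one]; norm_num; exact h2
      · rw [hv (n + 1) (by omega), i2, i3]
        unfold Sv dl
        have := PiR_pos (n + 1)
        field_simp
    refine ⟨hvn, ?_, ?_, ?_⟩
    · rw [Finset.sum_Icc_succ_top (by omega), i2, hvn, Sv_succ (n + 1)]
    · rw [Finset.sum_Icc_succ_top (by omega)]
      have hico : Finset.Ico 1 (n + 1 + 1) = Finset.Icc 1 (n + 1) := by
        ext i; simp only [Finset.mem_Ico, Finset.mem_Icc]; omega
      have hsum : ∑ i ∈ Finset.Ico 1 (n + 1 + 1), 1 / (v i * v (n + 1 + 1)) = 1 / (1 + (Nm (n + 1) : ℝ)) * Sv (n + 1) := by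
        rw [hico, ← i2, Finset.mul_sum, hvn]
        apply Finset.sum_congr rfl
        intro i _
        rw [one_div_mul_one_div, mul_comm]
      rw [hsum]
      have h3 := dl_succ_sub (n + 1)
      linarith
    · rw [Finset.prod_Icc_succ_top (by omega), i4, hvn, Pi_succ (n + 1)]
      push_cast; ring

end Q39.SG
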