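import Pool.Agent.Q39.SG.Main

namespace Q39.SG

open List

set_option maxHeartbeats 4000000

/-- cast of a list of natural numbers -/
def cast (L : List ℕ) : List ℝ := L.map (fun (k : ℕ) => (k : ℝ))

theorem cast_cons (x : ℕ) (L : List ℕ) : cast (x :: L) = (x : ℝ) :: cast L := rfl
theorem cast_length (L : List ℕ) : (cast L).length = L.length := by simp [cast]

/-- descending list of positive integers -/
def DnN : List ℕ → Prop
  | [] => True
  | x :: L => (∀ y ∈ L, y ≤ x) ∧ DnN L

theorem Dn_cast {L : List ℕ} (h : DnN L) : Dn (cast L) := by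
  induction L with
  | nil => trivial
  | cons x L ih =>
    rw [cast_cons]
    refine ⟨?_, ih h.2⟩
    intro y hy
    obtain ⟨k, hk, rfl⟩ := List.mem_map.mp hy
    exact_mod_cast h.1 k hk

theorem Pos1_cast {L : List ℕ} (h : ∀ x ∈ L, 1 ≤ x) : Pos1 (cast L) := by
  intro y hy
  obtain ⟨k, hk, rfl⟩ := List.mem_map.mp hy
  exact_mod_cast h k hk

theorem int_parts {L : List ℕ} (h : ∀ x ∈ L, 1 ≤ x) :
    0 < (cast L).prod ∧ (∃ A : ℕ, s (cast L) * (cast L).prod = A) ∧ (∃ B : ℕ, e (cast L) * (cast L).prod = B) ∧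
    (∃ C : ℕ, (cast L).prod = C) := by
  induction L with
  | nil => exact ⟨by simp [cast], ⟨0, by simp [cast, s]⟩, ⟨0, by simp [cast, e]⟩, ⟨1, by simp [cast]⟩⟩
  | cons x L ih =>
    obtain ⟨h0, ⟨A, hA⟩, ⟨B, hB⟩, ⟨C, hC⟩⟩ := ih (fun y hy => h y (by simp [hy]))
    have hx : (0:ℝ) < (x : ℝ) := by
      have := h x (by simp)
      exact_mod_cast this
    rw [cast_cons]
    simp only [s, e, List.prod_cons]
    refine ⟨by positivity, ⟨C + x * A, ?_⟩, ⟨x * B + A, ?_⟩, ⟨x * C, ?_⟩⟩
    · push_cast
      rw [← hC, ← hA]; field_simp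
    · push_cast
      rw [← hA, ← hB]; field_simp
    · push_cast
      rw [← hC]

theorem D_ge {L : List ℕ} (h : ∀ x ∈ L, 1 ≤ x) (hD : 0 < 1 - e (cast L)) :
    1 / (cast L).prod ≤ 1 - e (cast L) := by
  obtain ⟨h0, -, ⟨B, hB⟩, ⟨C, hC⟩⟩ := int_parts h
  rw [div_le_iff₀ h0]
  have h1 : (1 - e (cast L)) * (cast L).prod = (C : ℝ) - (B : ℝ) := by
    rw [sub_mul, hB, one_mul, hC]
  have h2 : 0 < (C : ℝ) - (B : ℝ) := by rw [← h1]; positivity
  have h3 : (B : ℝ) < (C : ℝ) := by linarith
  have h4 : B < C := by exact_mod_cast h3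
  have h5 : (B : ℝ) + 1 ≤ (C : ℝ) := by exact_mod_cast h4
  rw [h1]; linarith

theorem three_case {x y z : ℕ} (hx : 1 ≤ x) (hxy : x ≤ y) (hyz : y ≤ z)
    (h : x + y + z + 1 ≤ x * y * z) : 8 * (x + y + z) ≤ 7 * (x * y * z) := by
  rcases Nat.lt_or_ge x 2 with h1 | h1
  · have : x = 1 := by omega
    subst this
    rcases Nat.lt_or_ge y 3 with h2 | h2
    · interval_cases y
      · omega
      · omega
    · nlinarith [Nat.mul_le_mul h2 (h2.trans hyz)]
  · have hy : 2 ≤ y := h1.trans hxy
    have h3 : 4 * z ≤ x * y * z := Nat.mul_le_mul_right z (by nlinarith)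
    omega

/-- Lemma A -/
theorem lemA {L : List ℕ} (hd : DnN L) (hp : ∀ x ∈ L, 1 ≤ x) (hD : 0 < 1 - e (cast L)) :
    G (cast L) := by
  induction L with
  | nil => trivial
  | cons x L ih =>
    have hpL : ∀ y ∈ L, 1 ≤ y := fun y hy => hp y (by simp [hy])
    have hpc := Pos1_cast hp
    have hpcL := Pos1_cast hpL
    have hdc := Dn_cast hd
    rw [cast_cons] at hdc hpc hD ⊢
    have hx1 : (1:ℝ) ≤ (x:ℝ) := hpc _ (by simp)
    have hs0 := s_nonneg hpcL
    have he1 : e ((x:ℝ) :: cast L) = e (cast L) + 1 / (x:ℝ) * s (cast L) := by rw [e]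
    have hD0 : 0 < 1 - e (cast L) := by
      have : 0 ≤ 1 / (x:ℝ) * s (cast L) := by positivity
      linarith
    have hGL := ih hd.2 hpL hD0
    refine ⟨?_, hGL⟩
    rw [cast_length]
    have hDge := D_ge hp (by rw [cast_cons]; exact hD)
    rw [cast_cons] at hDge
    obtain ⟨hprod0, -, -, -⟩ := int_parts hp
    rw [cast_cons] at hprod0
    rcases Nat.lt_or_ge L.length 3 with h3 | h3
    · match L, h3 with
      | [], _ =>
        simp only [cast, List.map_nil, List.length_nil, zero_add, dl_one, e, s]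
        norm_num
      | [y], _ =>
        have hd2 : dl ([y].length + 1) = 1 / 2 := by simpa using dl_two
        rw [hd2]
        have hy1 : 1 ≤ y := hpL y (by simp)
        have hx1' : 1 ≤ x := hp x (by simp)
        have hy1R : (0:ℝ) < (y:ℝ) := by exact_mod_cast hy1
        have e2 : e ((x:ℝ) :: cast [y]) = 1 / (x:ℝ) * (1 / (y:ℝ)) := by
          simp [cast, e, s]
        rw [e2] at hD ⊢
        have hxy : 2 ≤ x * y := by
          by_contra hcon
          have : x * y = 1 := by
            have : 0 < x * y := by positivity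
            omega
          have h1 : (x:ℝ) * (y:ℝ) = 1 := by exact_mod_cast this
          rw [one_div_mul_one_div, h1] at hD
          norm_num at hD
        have h2 : (2:ℝ) ≤ (x:ℝ) * (y:ℝ) := by exact_mod_cast hxy
        have h3 : 1 / (x:ℝ) * (1 / (y:ℝ)) ≤ 1 / 2 := by
          rw [one_div_mul_one_div]
          exact one_div_le_one_div_of_le (by norm_num) h2
        linarith
      | [y, z], _ =>
        have hd3 : dl ([y, z].length + 1) = 1 / 8 := by simpa using dl_three
        rw [hd3]
        have hy1 : 1 ≤ y := hpL y (by simp)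
        have hz1 : 1 ≤ z := hpL z (by simp)
        have hx1' : 1 ≤ x := hp x (by simp)
        have hyR : (0:ℝ) < (y:ℝ) := by exact_mod_cast hy1
        have hzR : (0:ℝ) < (z:ℝ) := by exact_mod_cast hz1
        have hxR : (0:ℝ) < (x:ℝ) := by exact_mod_cast hx1'
        have hyx : y ≤ x := hd.1 y (by simp)
        have hzy : z ≤ y := hd.2.1 z (by simp)
        have e2 : e ((x:ℝ) :: cast [y, z]) = 1 / (y:ℝ) * (1 / (z:ℝ)) + 1 / (x:ℝ) * (1 / (y:ℝ) + 1 / (z:ℝ)) := by
          simp [cast, e, s]
        rw [e2] at hD ⊢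
        have e3 : (1 - (1 / (y:ℝ) * (1 / (z:ℝ)) + 1 / (x:ℝ) * (1 / (y:ℝ) + 1 / (z:ℝ)))) * ((z:ℝ) * y * x)
            = (z:ℝ) * y * x - (z + y + x) := by field_simp; ring
        have h1 : (0:ℝ) < (z:ℝ) * y * x - (z + y + x) := by
          rw [← e3]; positivity
        have h2 : z + y + x + 1 ≤ z * y * x := by
          have : ((z + y + x : ℕ) : ℝ) < ((z * y * x : ℕ) : ℝ) := by push_cast; linarith
          have : z + y + x < z * y * x := by exact_mod_cast this
          omega
        have h3 := three_case hz1 hzy hyx h2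
        have h4 : (8:ℝ) * ((z:ℝ) + y + x) ≤ 7 * ((z:ℝ) * y * x) := by exact_mod_cast h3
        have h5 : (1 / 8) * ((z:ℝ) * y * x) ≤ (1 - (1 / (y:ℝ) * (1 / (z:ℝ)) + 1 / (x:ℝ) * (1 / (y:ℝ) + 1 / (z:ℝ)))) * ((z:ℝ) * y * x) := by
          rw [e3]; linarith
        exact le_of_mul_le_mul_right h5 (by positivity)
    · -- the main case
      by_contra hcon
      rw [not_le] at hcon
      have hLne : cast L ≠ [] := by
        intro h
        have := cast_length L
        rw [h] at this
        simp at this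
        omega
      have hsp := s_pos hpcL hLne
      obtain ⟨D0, hD0d⟩ : ∃ D0, D0 = 1 - e (cast L) := ⟨_, rfl⟩
      obtain ⟨D, hDd⟩ : ∃ D, D = 1 - e ((x:ℝ) :: cast L) := ⟨_, rfl⟩
      rw [← hD0d] at hD0
      rw [← hDd] at hD hcon hDge
      have hDD : D = D0 - 1 / (x:ℝ) * s (cast L) := by rw [hDd, hD0d, he1]; ring
      have hdlD0 : dl L.length ≤ D0 := by
        rw [hD0d]; have := hGL.self; rwa [cast_length] at this
      obtain ⟨v, hv⟩ : ∃ v : ℝ, v = 1 + (Nm L.length : ℝ) := ⟨_, rfl⟩
      have hv15 : 15 ≤ v := by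
        have h1 : 14 ≤ Nm L.length := by have := Nm_mono h3; rwa [Nm_three] at this
        have : (14:ℝ) ≤ (Nm L.length : ℝ) := by exact_mod_cast h1
        rw [hv]; linarith
      have hdlv : dl (L.length + 1) * v = dl L.length := by
        rw [dl_succ, ← hv]; field_simp
      have hDv : D * v < D0 := by
        calc D * v < dl (L.length + 1) * v := mul_lt_mul_of_pos_right hcon (by linarith)
          _ = dl L.length := hdlv
          _ ≤ D0 := hdlD0
      obtain ⟨c, hc⟩ : ∃ c, c = s (cast L) / D0 := ⟨_, rfl⟩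
      have hcpos : 0 < c := by rw [hc]; positivity
      have hcs : 1 / c * s (cast L) = D0 := by rw [hc]; field_simp
      have hsc : s (cast L) = c * D0 := by rw [hc]; field_simp
      have hxpos : (0:ℝ) < (x:ℝ) := by linarith
      have hxD : (x:ℝ) * (D0 - D) = c * D0 := by
        rw [← hsc, hDD]; field_simp; ring
      have hxc : (x:ℝ) ≤ 15 / 14 * c := by
        -- D ≤ D0/15
        have h1 : D * 15 ≤ D0 := by nlinarith
        have h2 : (x:ℝ) * (14 / 15 * D0) ≤ c * D0 := by
          rw [← hxD]; exact mul_le_mul_of_nonneg_left (by linarith) hxpos.le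
        have h3 : ((x:ℝ) * (14 / 15)) * D0 ≤ c * D0 := by linarith
        have h4 := le_of_mul_le_mul_right h3 hD0
        linarith
      -- the last three elements
      obtain ⟨K, p, q', r, hK⟩ : ∃ K p q' r, L = K ++ [p, q', r] := by
        refine ⟨L.take (L.length - 3), ?_⟩
        have h1 : (L.drop (L.length - 3)).length = 3 := by rw [List.length_drop]; omega
        match hh : L.drop (L.length - 3), h1 with
        | [p, q', r], _ => exact ⟨p, q', r, by rw [← hh, List.take_append_drop]⟩
      have hsufN : [p, q', r] <:+ L := ⟨K, hK.symm⟩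
      have hsuf : cast [p, q', r] <:+ cast L := by
        refine ⟨cast K, ?_⟩
        rw [hK]; simp [cast]
      have hmono := (suffix_mono hsuf hpcL).2
      have hpx : p ≤ x := hd.1 p (hsufN.subset (by simp))
      have hqx : q' ≤ x := hd.1 q' (hsufN.subset (by simp))
      have hrx : r ≤ x := hd.1 r (hsufN.subset (by simp))
      have hp1 : 1 ≤ p := hpL p (hsufN.subset (by simp))
      have hq1 : 1 ≤ q' := hpL q' (hsufN.subset (by simp))
      have hr1 : 1 ≤ r := hpL r (hsufN.subset (by simp))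
      have hpR : (0:ℝ) < (p:ℝ) := by exact_mod_cast hp1
      have hqR : (0:ℝ) < (q':ℝ) := by exact_mod_cast hq1
      have hrR : (0:ℝ) < (r:ℝ) := by exact_mod_cast hr1
      have e4 : e (cast [p, q', r]) = 1 / (q':ℝ) * (1 / (r:ℝ)) + 1 / (p:ℝ) * (1 / (q':ℝ) + 1 / (r:ℝ)) := by
        simp [cast, e, s]
      rw [e4] at hmono
      have hkey : 2 ≤ r ∨ 3 ≤ x := by
        by_contra hh
        rw [not_or, not_le, not_le] at hh
        have hr' : r = 1 := by omega
        have hx2 : x ≤ 2 := by omega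
        have hp2 : (p:ℝ) ≤ 2 := by exact_mod_cast hpx.trans hx2
        have hq2 : (q':ℝ) ≤ 2 := by exact_mod_cast hqx.trans hx2
        have i1 : (1:ℝ) / 2 ≤ 1 / (p:ℝ) := one_div_le_one_div_of_le hpR hp2
        have i2 : (1:ℝ) / 2 ≤ 1 / (q':ℝ) := one_div_le_one_div_of_le hqR hq2
        rw [hr'] at hmono
        push_cast at hmono
        have i3 : (1:ℝ) / 2 * (1 / 2 + 1 / 1) ≤ 1 / (p:ℝ) * (1 / (q':ℝ) + 1 / 1) :=
          mul_le_mul i1 (by linarith) (by norm_num) (by positivity)
        linarith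
      have hx2 : (2:ℝ) ≤ (x:ℝ) := by
        have : 2 ≤ x := by omega
        exact_mod_cast this
      have hc1 : 1 ≤ c := by linarith
      have hj : 4 ≤ L.length + 1 := by omega
      have hRins := R_ins (R_all hj) (c := c) (L := cast L) (by rw [cast_length]) hdc.2 hpcL hGL hc1
        (by rw [hcs, hD0d]; ring) hLne (15 / 14) (by norm_num) (by norm_num)
        (fun y hy => (hdc.1 y hy).trans hxc) (by
          intro r' hr' _
          have hrr : r' = (r:ℝ) := by
            obtain ⟨K', hK'⟩ := hr'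
            have h1 : (K' ++ [r']).getLast? = (cast L).getLast? := by rw [hK']
            rw [hK] at h1
            simpa [cast] using h1
          rw [hrr]
          rcases hkey with h2 | h2
          · have h2R : (2:ℝ) ≤ (r:ℝ) := by exact_mod_cast h2
            nlinarith
          · have h2R : (3:ℝ) ≤ (x:ℝ) := by exact_mod_cast h2
            have h1R : (1:ℝ) ≤ (r:ℝ) := by exact_mod_cast hr1
            nlinarith)
      -- the product is smaller than Pi (j)
      obtain ⟨P0, hP0⟩ : ∃ P0, P0 = (cast L).prod := ⟨_, rfl⟩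
      rw [← hP0] at hRins
      have hprod : ((x:ℝ) :: cast L).prod = x * P0 := by rw [List.prod_cons, hP0]
      rw [hprod] at hDge hprod0
      have hT : (Tn (L.length + 1) : ℝ) = (Pi L.length : ℝ) * (v - 1) := by
        unfold Tn; rw [hv]; push_cast
        simp
      have hPi : (Pi (L.length + 1) : ℝ) = (Pi L.length : ℝ) * v := by
        rw [Pi_succ, hv]; push_cast; ring
      have hPiL := PiR_pos L.length
      have hlt : x * P0 < (Pi (L.length + 1) : ℝ) := by
        rw [hPi]
        -- x P0 (D0 - D) = P0 c D0 ≤ T D0 = Pi (v-1) D0 < Pi v (D0 - D)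
        have h1 : (x * P0) * (D0 - D) ≤ ((Pi L.length : ℝ) * (v - 1)) * D0 := by
          calc (x * P0) * (D0 - D) = P0 * (x * (D0 - D)) := by ring
            _ = (P0 * c) * D0 := by rw [hxD]; ring
            _ ≤ _ := mul_le_mul_of_nonneg_right (by rw [← hT]; exact hRins) hD0.le
        have h2 : ((Pi L.length : ℝ) * (v - 1)) * D0 < ((Pi L.length : ℝ) * v) * (D0 - D) := by
          nlinarith
        have h3 : 0 < D0 - D := by nlinarith
        exact lt_of_mul_lt_mul_right (lt_of_le_of_lt h1 h2) h3.le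
      have hfin : dl (L.length + 1) < 1 / (x * P0) := by
        unfold dl
        exact one_div_lt_one_div_of_lt hprod0 hlt
      linarith

/-- the list form of the final result -/
theorem list_bound {x : ℕ} {L : List ℕ} (hn : 3 ≤ L.length) (hd : DnN (x :: L))
    (hp : ∀ y ∈ x :: L, 1 ≤ y) (he : e (cast (x :: L)) = 1) :
    (cast (x :: L)).prod ≤ (Tn (L.length + 1) : ℝ) := by
  have hpL : ∀ y ∈ L, 1 ≤ y := fun y hy => hp y (by simp [hy])
  have hLne : cast L ≠ [] := by
    intro h
    have := cast_length L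
    rw [h] at this
    simp at this
    omega
  have hsp := s_pos (Pos1_cast hpL) hLne
  have hx : (1:ℝ) ≤ (x:ℝ) := by exact_mod_cast hp x (by simp)
  have hD0 : 0 < 1 - e (cast L) := by
    have h1 : e (cast (x :: L)) = e (cast L) + 1 / (x:ℝ) * s (cast L) := by rw [cast_cons, e]
    have : 0 < 1 / (x:ℝ) * s (cast L) := by positivity
    rw [he] at h1
    linarith
  have hG := lemA hd.2 hpL hD0
  have hR := R_all (n := L.length + 1) (by omega)
  rw [cast_cons] at he ⊢
  have hdc := Dn_cast hd
  have hpc := Pos1_cast hp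
  rw [cast_cons] at hdc hpc
  exact hR x (cast L) (by rw [cast_length]) hdc hpc hG he

end Q39.SG
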