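import Pool.Agent.Q39.SG.Step

namespace Q39.SG

open List

set_option maxHeartbeats 4000000

/-- the case of four numbers, as a real inequality -/
theorem base4 {x y a b : ℝ} (hx : 1 ≤ x) (hxy : x ≤ y) (hya : y ≤ a) (hab : a ≤ b)
    (hP : 2 ≤ x * y) (h3 : x * y * a ≤ 8 * ((x * y - 1) * a - (x + y)))
    (he : (x * y - 1) * a * b = (x + y) * (a + b) + x * y) : x * y * a * b ≤ 112 := by
  have hy : 1 ≤ y := hx.trans hxy
  have ha : 1 ≤ a := hy.trans hya
  have hb : 1 ≤ b := ha.trans hab
  set P := x * y with hPdef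
  set A := x + y with hAdef
  have hA : 2 ≤ A := by rw [hAdef]; linarith
  -- bound on A
  have hkey : 8 * A ^ 2 ≤ (14 - P) * (7 * P - 8) := by
    have hA1 : A ≤ 1 + P := by rw [hAdef, hPdef]; nlinarith
    rcases le_or_gt P 4 with h4 | h4
    · have h5 : 8 * A ^ 2 ≤ 8 * (1 + P) ^ 2 := by nlinarith
      nlinarith [mul_nonneg (sub_nonneg.2 hP) (sub_nonneg.2 h4)]
    · have hyy : (P - 3) * y ^ 2 ≤ 3 * P := by
        have h1 : P - 1 = A * (1 / a + 1 / b) + P * (1 / (a * b)) := by
          field_simp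
          linarith
        have h2 : 1 / a ≤ 1 / y := one_div_le_one_div_of_le (by linarith) hya
        have h3' : 1 / b ≤ 1 / y := one_div_le_one_div_of_le (by linarith) (hya.trans hab)
        have h4' : 1 / (a * b) ≤ 1 / (y * y) :=
          one_div_le_one_div_of_le (by positivity) (mul_le_mul hya (hya.trans hab) (by linarith) (by linarith))
        have h5 : P - 1 ≤ A * (1 / y + 1 / y) + P * (1 / (y * y)) := by
          rw [h1]
          have := mul_le_mul_of_nonneg_left (add_le_add h2 h3') (show (0:ℝ) ≤ A by linarith)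
          have := mul_le_mul_of_nonneg_left h4' (show (0:ℝ) ≤ P by linarith)
          linarith
        have h6 : (A * (1 / y + 1 / y) + P * (1 / (y * y))) * y ^ 2 = 2 * A * y + P := by
          field_simp
          ring
        have h7 : (P - 1) * y ^ 2 ≤ 2 * A * y + P := by
          rw [← h6]
          exact mul_le_mul_of_nonneg_right h5 (by positivity)
        have h8 : 2 * A * y = 2 * P + 2 * y ^ 2 := by rw [hAdef, hPdef]; ring
        linarith
      have hPy : P ≤ y ^ 2 := by rw [hPdef]; nlinarith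
      have hP6 : P ≤ 6 := by nlinarith
      have hy12 : y ^ 2 ≤ 12 := by nlinarith
      have hx12 : x ^ 2 ≤ 12 := by nlinarith
      have hAsq : A ^ 2 ≤ P ^ 2 / 12 + 12 + 2 * P := by
        have h9 : 0 ≤ (12 - y ^ 2) * (12 - x ^ 2) := mul_nonneg (by linarith) (by linarith)
        have h10 : A ^ 2 = x ^ 2 + y ^ 2 + 2 * P := by rw [hAdef, hPdef]; ring
        have h11 : P ^ 2 = x ^ 2 * y ^ 2 := by rw [hPdef]; ring
        rw [h10, h11]
        nlinarith
      nlinarith [mul_nonneg (sub_nonneg.2 h4.le) (sub_nonneg.2 hP6)]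
  have h7 : 0 < 7 * P - 8 := by linarith
  obtain ⟨a0, ha0⟩ : ∃ a0, a0 = 8 * A / (7 * P - 8) := ⟨_, rfl⟩
  have ha0' : (7 * P - 8) * a0 = 8 * A := by rw [ha0]; field_simp
  have ha0pos : 0 < a0 := by rw [ha0]; positivity
  have haa0 : a0 ≤ a := by
    rw [ha0, div_le_iff₀ h7]; linarith
  have hP0 : 0 < P := by linarith
  -- u0 = P a0 / 8
  have hu0 : (P - 1) * a0 - A = P * a0 / 8 := by linarith
  have hu : P * a0 / 8 ≤ (P - 1) * a - A := by
    have : P * a0 ≤ P * a := mul_le_mul_of_nonneg_left haa0 hP0.le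
    linarith
  have hw : P * a0 / 8 ≤ (P - 1) * b - A := by
    have : (P - 1) * a ≤ (P - 1) * b := mul_le_mul_of_nonneg_left hab (by linarith)
    linarith
  have hprod : 0 ≤ (((P - 1) * a - A) - P * a0 / 8) * (((P - 1) * b - A) - P * a0 / 8) :=
    mul_nonneg (by linarith) (by linarith)
  have huw : ((P - 1) * a - A) * ((P - 1) * b - A) = P * (P - 1) + A ^ 2 := by
    have : ((P - 1) * a - A) * ((P - 1) * b - A) = (P - 1) * ((P - 1) * a * b) - (P - 1) * A * (a + b) + A ^ 2 := by ring
    rw [this, he]; ring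
  -- u0 X ≤ P + (P-1) a0^2
  have hX : (P * a0 / 8) * (a + b) ≤ P + (P - 1) * a0 ^ 2 := by
    have h1 : (P - 1) * ((P * a0 / 8) * (a + b)) ≤ (P - 1) * (P + (P - 1) * a0 ^ 2) := by
      have h2 : A = (P - 1) * a0 - P * a0 / 8 := by linarith
      nlinarith [hprod, huw, h2]
    exact le_of_mul_le_mul_left h1 (by linarith)
  have hfin : (P * a0 / 8) * (a * b) ≤ a0 * (A * a0 + P) := by
    have h1 : (P - 1) * ((P * a0 / 8) * (a * b)) ≤ (P - 1) * (a0 * (A * a0 + P)) := by
      have h2 : (P - 1) * ((P * a0 / 8) * (a * b)) = A * ((P * a0 / 8) * (a + b)) + P * (P * a0 / 8) := by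
        have : (P - 1) * ((P * a0 / 8) * (a * b)) = (P * a0 / 8) * ((P - 1) * a * b) := by ring
        rw [this, he]; ring
      rw [h2]
      have h3' := mul_le_mul_of_nonneg_left hX (show (0:ℝ) ≤ A by linarith)
      have h4 : A * (P + (P - 1) * a0 ^ 2) + P * (P * a0 / 8) = (P - 1) * (a0 * (A * a0 + P)) := by
        rw [← hu0]; ring
      linarith
    exact le_of_mul_le_mul_left h1 (by linarith)
  have hfin2 : P * (a * b) ≤ 8 * (A * a0 + P) := by
    have h1 : a0 * (P * (a * b)) ≤ a0 * (8 * (A * a0 + P)) := by linarith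
    exact le_of_mul_le_mul_left h1 ha0pos
  have hAa0 : A * a0 ≤ 14 - P := by
    have h1 : (7 * P - 8) * (A * a0) ≤ (7 * P - 8) * (14 - P) := by
      have : (7 * P - 8) * (A * a0) = 8 * A ^ 2 := by
        calc (7 * P - 8) * (A * a0) = A * ((7 * P - 8) * a0) := by ring
          _ = 8 * A ^ 2 := by rw [ha0']; ring
      rw [this]; linarith
    exact le_of_mul_le_mul_left h1 h7
  calc P * a * b = P * (a * b) := by ring
    _ ≤ 8 * (A * a0 + P) := hfin2
    _ ≤ 112 := by linarith

theorem R4 : R 4 := by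
  intro b L hlen hd hp hG he
  match L, hlen with
  | [a, y, x], _ =>
    have hx : 1 ≤ x := hp x (by simp)
    have hxy : x ≤ y := hd.2.2.1 x (by simp)
    have hya : y ≤ a := hd.2.1 y (by simp)
    have hab : a ≤ b := hd.1 a (by simp)
    have hy := hx.trans hxy
    have ha := hy.trans hya
    have hb := ha.trans hab
    have g3 := hG.1
    have g2 := hG.2.1
    simp only [List.length_cons, List.length_nil, zero_add, e, s, add_zero] at g3 g2 he
    have d3 : dl (1 + 1 + 1) = 1 / 8 := dl_three
    have d2 : dl (1 + 1) = 1 / 2 := dl_two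
    rw [d3] at g3
    rw [d2] at g2
    have hxp : 0 < x := by linarith
    have hyp : 0 < y := by linarith
    have hap : 0 < a := by linarith
    have hbp : 0 < b := by linarith
    have hP : 2 ≤ x * y := by
      have : 1 / y * (1 / x) ≤ 1 / 2 := by linarith
      rw [one_div_mul_one_div, div_le_div_iff₀ (by positivity) (by norm_num)] at this
      linarith
    have h3 : x * y * a ≤ 8 * ((x * y - 1) * a - (x + y)) := by
      have h := mul_le_mul_of_nonneg_left g3 (show (0:ℝ) ≤ 8 * (x * y * a) by positivity)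
      have e1 : 8 * (x * y * a) * (1 / 8) = x * y * a := by ring
      have e2 : 8 * (x * y * a) * (1 - (0 + 1 / x * 0 + 1 / y * (1 / x) + 1 / a * (1 / y + 1 / x))) =
          8 * ((x * y - 1) * a - (x + y)) := by field_simp; ring
      simp only [mul_zero, zero_add] at h e2
      linarith
    have he' : (x * y - 1) * a * b = (x + y) * (a + b) + x * y := by
      have h := congrArg (fun t => t * (x * y * a * b)) he
      beta_reduce at h
      field_simp at h
      linarith
    have := base4 hx hxy hya hab hP h3 he'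
    have hT : (Tn 4 : ℝ) = 112 := by
      unfold Tn
      rw [show 4 - 1 = 3 by rfl, Pi_three, Nm_three]; norm_num
    rw [hT]
    simp only [List.prod_cons, List.prod_nil]
    linarith [this, (show b * (a * (y * (x * 1))) = x * y * a * b by ring)]

theorem step_real {s S δ V W a b : ℝ} (hs : 0 < s) (hsS : s ≤ S) (hδ : 0 < δ) (hδsS : δ ≤ s * S)
    (hW0 : 0 < W) (hV0 : 0 < V)
    (hV : δ * V = δ + S) (hW : δ * W = S * V + 1) (hab : a ≤ b)
    (hD : δ * (a * b) ≤ s * (a + b) + 1) (hcase : V - (1 / s - 1 / S) < a) :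
    a + b ≤ (V - (1 / s - 1 / S)) + W := by
  have hS : 0 < S := by linarith
  obtain ⟨η, hη⟩ : ∃ η, η = 1 / s - 1 / S := ⟨_, rfl⟩
  rw [← hη] at hcase ⊢
  have hη1 : η * (s * S) = S - s := by rw [hη]; field_simp
  have hη0 : 0 ≤ η := by
    rw [hη, sub_nonneg]; exact one_div_le_one_div_of_le hs hsS
  have hδη : δ * η ≤ S - s := by
    rw [← hη1, mul_comm η]; exact mul_le_mul_of_nonneg_right hδsS hη0
  obtain ⟨A0, hA0⟩ : ∃ A0, A0 = δ * (V - η) - s := ⟨_, rfl⟩
  have hA0' : A0 = δ + (S - s) - δ * η := by rw [hA0]; linarith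
  have hA0pos : 0 < A0 := by rw [hA0']; linarith
  have hu : A0 ≤ δ * a - s := by
    rw [hA0]
    have := mul_le_mul_of_nonneg_left hcase.le hδ.le
    linarith
  have hw : A0 ≤ δ * b - s := by
    have := mul_le_mul_of_nonneg_left hab hδ.le
    linarith
  have hK : (δ * a - s) * (δ * b - s) ≤ s ^ 2 + δ := by nlinarith
  have hprod : 0 ≤ (δ * a - s - A0) * (δ * b - s - A0) := mul_nonneg (by linarith) (by linarith)
  have hmain : s * (V - η) + 1 ≤ W * A0 := by
    rw [hA0']
    have h1 : W * (δ + (S - s) - δ * η) = (S * V + 1) + W * (S - s) - W * (δ * η) := by rw [← hW]; ring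
    rw [h1]
    have h2 : W * (δ * η) ≤ W * (S - s) := mul_le_mul_of_nonneg_left hδη hW0.le
    have h3 : s * V ≤ S * V := mul_le_mul_of_nonneg_right hsS hV0.le
    have h4 : 0 ≤ s * η := mul_nonneg hs.le hη0
    linarith [(show s * (V - η) = s * V - s * η by ring)]
  have hK2 : s ^ 2 + δ ≤ (δ * W - s) * A0 := by
    have h5 : (δ * W - s) * A0 - (s ^ 2 + δ) = δ * (W * A0 - (s * (V - η) + 1)) := by
      have h6 : s * A0 = δ * (s * (V - η)) - s ^ 2 := by rw [hA0]; ring
      linear_combination (-1) * h6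
    have h7 : 0 ≤ δ * (W * A0 - (s * (V - η) + 1)) := mul_nonneg hδ.le (by linarith)
    linarith
  have hsum : A0 * ((δ * a - s) + (δ * b - s)) ≤ A0 * (A0 + (δ * W - s)) := by nlinarith
  have hsum2 := le_of_mul_le_mul_left hsum hA0pos
  have hfin : δ * (a + b) ≤ δ * ((V - η) + W) := by
    rw [hA0] at hsum2
    linarith
  exact le_of_mul_le_mul_left hfin hδ

theorem Rstep {n : ℕ} (hn : 4 ≤ n) (hR : R n) : R (n + 1) := by
  intro b L0 hlen hd hp hG he
  obtain ⟨a, L, rfl⟩ : ∃ a L, L0 = a :: L := by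
    cases L0 with
    | nil => simp at hlen; omega
    | cons a L => exact ⟨a, L, rfl⟩
  simp only [List.length_cons] at hlen
  have hm : L.length + 1 = n := by omega
  have hm3 : 3 ≤ L.length := by omega
  have hpL : Pos1 L := hp.tail.tail
  have hb : 1 ≤ b := hp b (by simp)
  have ha : 1 ≤ a := hp a (by simp)
  have hab : a ≤ b := hd.1 a (by simp)
  have hLa : ∀ x ∈ L, x ≤ a := hd.2.1
  have hGL : G L := hG.2
  have hLne : L ≠ [] := by intro h; rw [h] at hm3; simp at hm3
  have hs := s_pos hpL hLne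
  have he0 := e_nonneg hpL
  have hα : 0 < 1 / a := by positivity
  have hβ : 0 < 1 / b := by positivity
  have hβα : 1 / b ≤ 1 / a := one_div_le_one_div_of_le (by linarith) hab
  have he1 : e L + 1 / a * s L + 1 / b * (1 / a + s L) = 1 := by
    have : e (b :: a :: L) = e L + 1 / a * s L + 1 / b * (1 / a + s L) := by simp only [e, s]
    rw [← this]; exact he
  -- the last three elements
  obtain ⟨K, p, q', r, hK⟩ : ∃ K p q' r, L = K ++ [p, q', r] := by
    refine ⟨L.take (L.length - 3), ?_⟩
    have h1 : (L.drop (L.length - 3)).length = 3 := by rw [List.length_drop]; omega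
    match hh : L.drop (L.length - 3), h1 with
    | [p, q', r], _ => exact ⟨p, q', r, by rw [← hh, List.take_append_drop]⟩
  have hsuf : [p, q', r] <:+ L := ⟨K, hK.symm⟩
  have hmono := suffix_mono hsuf hpL
  have hp1 : 1 ≤ p := hpL p (hsuf.subset (by simp))
  have hq1 : 1 ≤ q' := hpL q' (hsuf.subset (by simp))
  have hr1 : 1 ≤ r := hpL r (hsuf.subset (by simp))
  have hpa : 1 / a ≤ 1 / p := one_div_le_one_div_of_le (by linarith) (hLa p (hsuf.subset (by simp)))
  have hqa : 1 / a ≤ 1 / q' := one_div_le_one_div_of_le (by linarith) (hLa q' (hsuf.subset (by simp)))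
  have hra : 1 / a ≤ 1 / r := one_div_le_one_div_of_le (by linarith) (hLa r (hsuf.subset (by simp)))
  simp only [s, e, add_zero, mul_zero, zero_add] at hmono
  obtain ⟨hm_s, hm_e⟩ := hmono
  obtain ⟨D, hD⟩ : ∃ D, D = 1 - e L := ⟨_, rfl⟩
  have hDδ : dl L.length ≤ D := by rw [hD]; exact hGL.self
  have hDpos : 0 < D := lt_of_lt_of_le (dl_pos _) hDδ
  obtain ⟨c, hc⟩ : ∃ c, c = s L / D := ⟨_, rfl⟩
  have hcpos : 0 < c := by rw [hc]; positivity
  have hcinv : 1 / c = D / s L := by rw [hc]; field_simp
  have hcs : 1 / c * s L = D := by rw [hcinv]; field_simp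
  have hDeq : D = 1 / a * s L + 1 / b * (1 / a + s L) := by rw [hD]; linarith
  obtain ⟨g, hg⟩ : ∃ g, g = 1 / c := ⟨_, rfl⟩
  rw [← hg] at hcs
  have hgpos : 0 < g := by rw [hg]; positivity
  generalize hα' : 1 / a = α at *
  generalize hβ' : 1 / b = β at *
  have hs3 : 3 * α ≤ s L := by linarith
  -- g ≤ 2α + α^2/s
  have hg1 : g * s L ≤ 2 * α * s L + α ^ 2 := by
    rw [hcs, hDeq]
    nlinarith [mul_le_mul_of_nonneg_right hβα hs.le, mul_le_mul_of_nonneg_left hβα hα.le]
  have hg2 : g ≤ 7 / 3 * α := by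
    have : g * s L ≤ (7 / 3 * α) * s L := by nlinarith
    exact le_of_mul_le_mul_right this hs
  have hgle : g ≤ 1 := by
    by_contra hcon
    rw [not_le] at hcon
    nlinarith
  have hc1 : 1 ≤ c := by
    rw [hg] at hgle
    rwa [div_le_one hcpos] at hgle
  have hac : a ≤ 3 * c := by
    have h1 : g ≤ 3 * α := by linarith
    rw [hg, ← hα'] at h1
    rw [show 3 * (1 / a) = 3 / a by ring, div_le_div_iff₀ hcpos (by linarith)] at h1
    linarith
  have hRins := R_ins hR (c := c) hm hd.2.2 hpL hGL hc1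
    (by rw [← hg, hcs, hD]; ring) hLne 3 (by norm_num) le_rfl (fun x hx => (hLa x hx).trans hac) (by
      intro r' hr' _
      -- r' = r
      have hrr : r' = r := by
        obtain ⟨K', hK'⟩ := hr'
        have : (K' ++ [r']).getLast? = (K ++ [p, q', r]).getLast? := by rw [hK', hK]
        simpa using this
      subst hrr
      have hy : 0 < 1 / r' := by positivity
      obtain ⟨y, hyd⟩ : ∃ y, y = 1 / r' := ⟨_, rfl⟩
      rw [← hyd] at hm_s hm_e hra hy
      -- g y ≤ 2 α y + α^2
      have h1 : g * y ≤ 2 * α * y + α ^ 2 := by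
        have hsy : y ≤ s L := by
          have : 0 < 1 / p := by positivity
          have : 0 < 1 / q' := by positivity
          linarith
        -- from g s ≤ 2αs + α² and y ≤ s
        have h2 : g * s L * y ≤ (2 * α * y + α ^ 2) * s L := by
          have i1 := mul_le_mul_of_nonneg_right hg1 hy.le
          have i2 := mul_le_mul_of_nonneg_left hsy (sq_nonneg α)
          linarith
        have h3 : (g * y) * s L ≤ (2 * α * y + α ^ 2) * s L := by linarith
        exact le_of_mul_le_mul_right h3 hs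
      have h4 : 1 = e L + g * s L := by rw [hcs, hD]; ring
      have h5 : α * y + α * (α + y) ≤ e L := by
        refine le_trans ?_ hm_e
        have hq0 : 0 < 1 / q' := by positivity
        have i1 : α * y ≤ 1 / q' * y := mul_le_mul_of_nonneg_right hqa hy.le
        have i2 : α * (α + y) ≤ 1 / p * (1 / q' + y) :=
          mul_le_mul hpa (by linarith) (by linarith) (by positivity)
        linarith
      have h6 : g * (2 * α + y) ≤ g * s L := mul_le_mul_of_nonneg_left (by linarith) hgpos.le
      have h7 : 2 * (g * y) ≤ 1 := by nlinarith [mul_pos hgpos hα]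
      -- 2 ≤ r' c
      have h8 : g * y = 1 / (c * r') := by rw [hg, hyd, one_div_mul_one_div]
      rw [h8, show 2 * (1 / (c * r')) = 2 / (c * r') by ring, div_le_one (by positivity)] at h7
      linarith)
  -- product identity
  have hprodeq : (b :: a :: L).prod = (L.prod * c) * (a + b + 1 / s L) := by
    have hab' : a * b * D = s L * (a + b) + 1 := by
      rw [hDeq, ← hα', ← hβ']
      field_simp
      ring
    have h1 : a * b = c * (a + b + 1 / s L) := by
      have h2 : D * (c * (a + b + 1 / s L)) = s L * (a + b) + 1 := by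
        rw [hc]; field_simp
      have h3 : D * (a * b) = D * (c * (a + b + 1 / s L)) := by rw [h2]; linarith
      exact mul_left_cancel₀ hDpos.ne' h3
    simp only [List.prod_cons]
    calc b * (a * L.prod) = L.prod * (a * b) := by ring
      _ = L.prod * (c * (a + b + 1 / s L)) := by rw [h1]
      _ = _ := by ring
  -- Lemma B
  obtain ⟨x0, L1, hx0⟩ : ∃ x0 L1, L = x0 :: L1 := by
    cases L with
    | nil => exact absurd rfl hLne
    | cons x0 L1 => exact ⟨x0, L1, rfl⟩
  have hB1 : s L ≤ Sv L.length := by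
    have := (lemB (x := x0) (L := L1) (by rw [← hx0]; exact hpL) (by rw [← hx0]; exact hd.2.2) (by rw [← hx0]; exact hGL)).1
    rw [← hx0] at this
    rw [hx0, List.length_cons]
    rw [hx0] at this
    exact this
  have hB2 : s (a :: L) ≤ Sv (L.length + 1) := (lemB hp.tail hd.2 hG).1
  have hB2' : α + s L ≤ Sv (L.length + 1) := by
    have : s (a :: L) = α + s L := by rw [← hα']; simp only [s]
    rw [← this]; exact hB2
  have hG1 : dl (L.length + 1) ≤ D - α * s L := by
    have := hG.1
    have e2 : e (a :: L) = e L + α * s L := by rw [← hα']; simp only [e]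
    rw [e2] at this
    rw [hD]; linarith
  obtain ⟨m, hmdef⟩ : ∃ m, m = L.length := ⟨_, rfl⟩
  rw [← hmdef] at hB1 hB2' hG1 hDδ hm3 hm
  have hPi := PiR_pos m
  have hNm : 0 < Nm m := Nm_pos (by omega)
  have hNmR : (0:ℝ) < (Nm m : ℝ) := by exact_mod_cast hNm
  obtain ⟨V, hV⟩ : ∃ V : ℝ, V = 1 + (Nm m : ℝ) := ⟨_, rfl⟩
  obtain ⟨W, hW⟩ : ∃ W : ℝ, W = (Nm (m + 1) : ℝ) := ⟨_, rfl⟩
  have hV' : dl m * V = dl m + Sv m := by
    rw [hV]; unfold dl Sv; field_simp
  have hW' : dl m * W = Sv m * V + 1 := by
    rw [hV, hW, Nm_succ]; unfold dl Sv; push_cast; field_simp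
  have hWpos : 0 < W := by
    rw [hW]; exact_mod_cast Nm_pos (show 1 ≤ m + 1 by omega)
  have hsum : a + b + 1 / s L ≤ V + W + 1 / Sv m := by
    rcases le_or_gt a (V - (1 / s L - 1 / Sv m)) with h1 | h1
    · have hbW : b ≤ W := by
        have h2 : β * (α + s L) = D - α * s L := by rw [hDeq]; ring
        have h3 : dl (m + 1) ≤ β * (α + s L) := by rw [h2]; exact hG1
        have h4 : dl (m + 1) ≤ β * Sv (m + 1) := h3.trans (mul_le_mul_of_nonneg_left hB2' hβ.le)
        have h5 : b * dl (m + 1) ≤ Sv (m + 1) := by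
          have := mul_le_mul_of_nonneg_left h4 (show (0:ℝ) ≤ b by linarith)
          rw [← hβ'] at this
          have h6 : b * (1 / b * Sv (m + 1)) = Sv (m + 1) := by field_simp
          linarith
        rw [hW]
        unfold dl Sv at h5
        have h7 := PiR_pos (m + 1)
        rw [mul_one_div, div_le_div_iff_of_pos_right h7] at h5
        exact h5
      linarith
    · have hDab : dl m * (a * b) ≤ s L * (a + b) + 1 := by
        have hab' : a * b * D = s L * (a + b) + 1 := by
          rw [hDeq, ← hα', ← hβ']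
          field_simp
          ring
        rw [← hab']
        have := mul_le_mul_of_nonneg_right hDδ (show (0:ℝ) ≤ a * b by positivity)
        linarith
      have hδs : dl m ≤ s L * Sv m := by
        have i1 : dl m ≤ s L := by
          -- s L = c D ≥ D ≥ δ
          have : s L = c * D := by rw [hc]; field_simp
          rw [this]
          nlinarith
        have i2 : 1 ≤ Sv m := Sv_ge_one (by omega)
        nlinarith [dl_pos m]
      have := step_real hs hB1 (dl_pos m) hδs hWpos (by rw [hV]; positivity) hV' hW' hab hDab h1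
      linarith
  have hTn : (Tn (n + 1) : ℝ) = (Tn n : ℝ) * (V + W + 1 / Sv m) := by
    have hn1 : n - 1 = m := by omega
    have hn2 : n + 1 - 1 = m + 1 := by omega
    unfold Tn
    rw [hn1, hn2, hV, hW, Pi_succ, Nm_succ]
    unfold Sv
    push_cast
    field_simp
    ring
  rw [hprodeq, hTn]
  have hTpos : (0:ℝ) ≤ (Tn n : ℝ) := by positivity
  exact mul_le_mul hRins hsum (by positivity) hTpos

theorem R_all {n : ℕ} (hn : 4 ≤ n) : R n := by
  induction n, hn using Nat.le_induction with
  | base => exact R4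
  | succ k hk ih => exact Rstep hk ih

end Q39.SG
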