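import Pool.Agent.Q39.SG.Defs

namespace Q39.SG

open List

/-- insertion into a descending list -/
noncomputable def ins (c : ℝ) : List ℝ → List ℝ
  | [] => [c]
  | x :: L => if x ≤ c then c :: x :: L else x :: ins c L

theorem ins_length (c : ℝ) (L : List ℝ) : (ins c L).length = L.length + 1 := by
  induction L with
  | nil => simp [ins]
  | cons x L ih => unfold ins; split_ifs <;> simp [ih]

theorem s_ins (c : ℝ) (L : List ℝ) : s (ins c L) = s L + 1 / c := by
  induction L with
  | nil => simp [ins, s]
  | cons x L ih => unfold ins; split_ifs <;> simp [s, ih] <;> ring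

theorem e_ins (c : ℝ) (L : List ℝ) : e (ins c L) = e L + 1 / c * s L := by
  induction L with
  | nil => simp [ins, e, s]
  | cons x L ih => unfold ins; split_ifs <;> simp [e, s, ih, s_ins] <;> ring

theorem prod_ins (c : ℝ) (L : List ℝ) : (ins c L).prod = L.prod * c := by
  induction L with
  | nil => simp [ins]
  | cons x L ih => unfold ins; split_ifs <;> simp [ih] <;> ring

theorem mem_ins {c y : ℝ} {L : List ℝ} (h : y ∈ ins c L) : y = c ∨ y ∈ L := by
  induction L with
  | nil => simp [ins] at h; exact Or.inl h
  | cons x L ih =>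
    unfold ins at h
    split_ifs at h with h1
    · simp only [List.mem_cons] at h ⊢
      tauto
    · simp only [List.mem_cons] at h ⊢
      rcases h with h | h
      · tauto
      · rcases ih h with h | h <;> tauto

theorem Dn_ins {c : ℝ} {L : List ℝ} (h : Dn L) : Dn (ins c L) := by
  induction L with
  | nil => simp [ins, Dn]
  | cons x L ih =>
    unfold ins
    split_ifs with h1
    · refine ⟨?_, h⟩
      intro y hy
      simp only [List.mem_cons] at hy
      rcases hy with rfl | hy
      · exact h1
      · exact (h.1 y hy).trans h1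
    · refine ⟨?_, ih h.2⟩
      intro y hy
      rcases mem_ins hy with rfl | hy
      · exact (not_le.mp h1).le
      · exact h.1 y hy

theorem Pos1_ins {c : ℝ} {L : List ℝ} (h : Pos1 L) (hc : 1 ≤ c) : Pos1 (ins c L) := by
  intro y hy
  rcases mem_ins hy with rfl | hy
  · exact hc
  · exact h y hy

theorem G_ins {c : ℝ} {L : List ℝ} (h : G L)
    (hF : ∀ M, M <:+ L → dl (M.length + 1) ≤ 1 - e M - 1 / c * s M) : G (ins c L) := by
  induction L with
  | nil =>
    have := hF [] (List.suffix_refl _)
    simp only [e, s, List.length_nil] at this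
    simp only [ins, G, e, s, List.length_nil]
    exact ⟨by linarith, trivial⟩
  | cons x L ih =>
    unfold ins
    split_ifs with h1
    · refine ⟨?_, h⟩
      have := hF (x :: L) (List.suffix_refl _)
      simp only [List.length_cons] at this ⊢
      have h2 : e (c :: x :: L) = e (x :: L) + 1 / c * s (x :: L) := by rw [e]
      rw [h2]; linarith
    · refine ⟨?_, ih h.2 (fun M hM => hF M (hM.trans (List.suffix_cons _ _)))⟩
      have := hF (x :: L) (List.suffix_refl _)
      rw [ins_length]
      have h2 : e (x :: ins c L) = e (x :: L) + 1 / c * s (x :: L) := by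
        simp only [e, s, e_ins, s_ins]; ring
      rw [h2]
      simp only [List.length_cons] at this
      linarith

/-- The tail of the inserted list satisfies the suffix conditions as soon as the quantities
`1 - e M - s M / c` are large for the proper suffixes `M`. -/
theorem ins_tail {c : ℝ} {L : List ℝ} (h : G L)
    (hF : ∀ x M, (x :: M) <:+ L → dl (M.length + 1) ≤ 1 - e M - 1 / c * s M) :
    ∃ b' L', ins c L = b' :: L' ∧ G L' := by
  cases L with
  | nil => exact ⟨c, [], rfl, trivial⟩
  | cons x L =>
    unfold ins
    split_ifs with h1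
    · exact ⟨c, x :: L, rfl, h⟩
    · refine ⟨x, ins c L, rfl, G_ins h.2 ?_⟩
      intro M hM
      -- M suffix of L, so it is a proper suffix of x :: L
      obtain ⟨K, hK⟩ := hM
      rcases List.eq_nil_or_concat K with hK0 | ⟨K', a, hK'⟩
      · subst hK0
        simp only [List.nil_append] at hK
        subst hK
        exact hF x M (List.suffix_refl _)
      · refine hF a M ⟨x :: K', ?_⟩
        rw [← hK, hK']
        simp

/-- The main property, `R n`. -/
def R (n : ℕ) : Prop := ∀ (b : ℝ) (L : List ℝ), L.length + 1 = n → Dn (b :: L) → Pos1 (b :: L) →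
  G L → e (b :: L) = 1 → (b :: L).prod ≤ (Tn n : ℝ)

/-- applying `R n` to an inserted list -/
theorem R_ins {n : ℕ} (hR : R n) {c : ℝ} {L : List ℝ} (hlen : L.length + 1 = n) (hd : Dn L)
    (hp : Pos1 L) (hG : G L) (hc : 1 ≤ c) (hone : e L + 1 / c * s L = 1) (hL : L ≠ [])
    (K : ℝ) (hK : 0 < K) (hK3 : K ≤ 3) (hx : ∀ x ∈ L, x ≤ K * c)
    (h1 : ∀ r, [r] <:+ L → L.length ≠ 1 → 2 ≤ r * c) :
    L.prod * c ≤ (Tn n : ℝ) := by
  have hF : ∀ x M, (x :: M) <:+ L → dl (M.length + 1) ≤ 1 - e M - 1 / c * s M := by
    intro x M hM
    have hM' : M <:+ L := (List.suffix_cons x M).trans hM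
    have hxL : x ∈ L := hM.subset (by simp)
    have hx1 : 1 ≤ x := hp x hxL
    have hxc := hx x hxL
    have hm := suffix_mono hM hp
    have hsM := s_nonneg (hp.suffix hM')
    have e1 : e (x :: M) = e M + 1 / x * s M := by rw [e]
    have s1 : s (x :: M) = 1 / x + s M := by rw [s]
    have hcpos : 0 < c := by linarith
    have hge : 1 / c * s (x :: M) ≤ 1 / c * s L := mul_le_mul_of_nonneg_left hm.1 (by positivity)
    rw [e1] at hm
    rw [s1] at hge
    have hxinv : 1 / (K * c) ≤ 1 / x := one_div_le_one_div_of_le (by linarith) hxc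
    have hF1 : 1 / x * s M ≤ 1 - e M - 1 / c * s M := by
      have h3 : 1 / c * (1 / x + s M) = 1 / c * (1 / x) + 1 / c * s M := by ring
      have h4 : 0 ≤ 1 / c * (1 / x) := by positivity
      linarith [hm.2]
    have hF2 : 1 / c * s M ≤ 3 * (1 / x * s M) := by
      have h5 : 1 / c ≤ 3 * (1 / x) := by
        have h6 : 1 / c = K * (1 / (K * c)) := by field_simp
        rw [h6]
        have : K * (1 / (K * c)) ≤ K * (1 / x) := mul_le_mul_of_nonneg_left hxinv hK.le
        have h7 : K * (1 / x) ≤ 3 * (1 / x) := mul_le_mul_of_nonneg_right hK3 (by positivity)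
        linarith
      calc 1 / c * s M ≤ (3 * (1 / x)) * s M := mul_le_mul_of_nonneg_right h5 hsM
        _ = 3 * (1 / x * s M) := by ring
    have hGM := (hG.suffix hM').self
    rcases Nat.lt_or_ge M.length 2 with h2 | h2
    · match M, h2 with
      | [], _ =>
        simp only [List.length_nil, zero_add, dl_one, e, s]
        linarith
      | [r], _ =>
        simp only [List.length_cons, List.length_nil, zero_add, dl_two, e, s]
        have hr : 1 ≤ r := hp r (hM'.subset (by simp))
        have hne : L.length ≠ 1 := by
          have := hM.length_le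
          simp at this
          omega
        have h3 := h1 r hM' hne
        have h4 : 1 / c * (1 / r + 0) ≤ 1 / 2 := by
          rw [add_zero, one_div_mul_one_div, div_le_div_iff₀ (by positivity) (by norm_num)]
          linarith
        have : dl (1 + 1) = 1 / 2 := dl_two
        rw [this]
        linarith
    · have h3 := dl_succ_le M.length h2
      linarith
  obtain ⟨b', L', hins, hGL'⟩ := ins_tail hG hF
  have hd' := Dn_ins (c := c) hd
  have hp' := Pos1_ins hp hc
  have hl := ins_length c L
  have he := e_ins c L
  have hprod := prod_ins c L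
  rw [hins] at hd' hp' hl he hprod
  rw [← hprod]
  refine hR b' L' ?_ hd' hp' hGL' (by rw [he]; exact hone)
  simp only [List.length_cons] at hl
  omega

end Q39.SG
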